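import Pool.Agent.Helper34_CStar.Main4

/-!
# Plane polynomials of degree at most four in one variable with a punctured line as a fibre

The complete list, up to equivalence, of the primitive plane polynomials which have a fibre
isomorphic to the punctured line and are equivalent to a polynomial of degree at most four in `y`.
-/

namespace Pool.Agent.Results.MP_a32c96_ag.DegreeFour

open Polynomial
open Pool.Agent.Helper34_CStar

/-- **Classification in degree at most four**, and existence and uniqueness of the members of the
ten series. -/
theorem result :
    (∀ p : P2, (HasCStarFibre p ∧ HasYDegree 4 p) ↔ ∃ q, IsRepr₄ q ∧ Equivalent p q) ∧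
    (∀ (j : Fin 4) (i : ℕ), 1 ≤ i → ∃! q : P2, IsTrunc j i q) ∧
    (∀ (j : Fin 6) (i : ℕ), 1 ≤ i → ∃! q : P2, IsTrunc₄ j i q) :=
  ⟨classification_four, fun j _ hi => existsUnique_trunc j hi,
    fun j _ hi => existsUnique_trunc₄ j hi⟩

end Pool.Agent.Results.MP_a32c96_ag.DegreeFour
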