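import Pool.Agent.Helper34_CStar.MainPair

/-!
# Plane polynomials with a punctured line as a fibre having a one-ended coordinate

Classification, for every `d ≥ 3`, of the primitive plane polynomials with a fibre isomorphic to the
punctured line on which some coordinate is a polynomial `f(T)` of degree `d` with `f'(0) ≠ 0`, the
branch at `T = ∞` having at most one characteristic pair (automatic for `d` prime); the
representatives are inequivalent up to the explicit rescaling of the first family.
-/

namespace Pool.Agent.Results.MP_a32c96_ag.OneEndedClassification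

open Polynomial
open Pool.Agent.Helper34_CStar

/-- **Classification and pairwise inequivalence of the representatives.** -/
theorem result :
    (∀ d : ℕ, 3 ≤ d → ∀ p : P2,
      InPairClass d p ↔ ∃ q, IsRepresentative d q ∧ Equivalent p q) ∧
    (∀ d : ℕ, d.Prime → ∀ p : P2, InClass d p ↔ InPairClass d p) ∧
    (∀ (d d' : ℕ) (q q' : P2), 3 ≤ d → 3 ≤ d' → IsRepresentative d q → IsRepresentative d' q' →
      (Equivalent q q' ↔ q = q' ∨ (d = d' ∧ ∃ (g g' : ℂ[X]) (l : ℂ), l ≠ 0 ∧
        g.Monic ∧ g.natDegree = d - 1 ∧ g.coeff 0 = 0 ∧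
        g'.Monic ∧ g'.natDegree = d - 1 ∧ g'.coeff 0 = 0 ∧
        q = q₁ d g ∧ q' = q₁ d g' ∧
        C (l ^ (d - 1)) * g' = g.comp (C l * X)))) :=
  ⟨fun _ h3 p => classification_pair h3 p, fun _ hp p => inClass_iff_inPairClass hp p,
    fun _ _ _ _ h3 h3' hq hq' => representatives_equivalent_iff h3 h3' hq hq'⟩

end Pool.Agent.Results.MP_a32c96_ag.OneEndedClassification
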